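import Pool.Agent.helper36.HK.Spec

/-!
# Row fi:CME (MP_ad8ced_nt), owner helper36
-/

set_option autoImplicit false

open Finset
open Pool.Agent.FI

noncomputable section

namespace Pool.Agent.HK

theorem CME : CME_stmt := by
  intro v hv
  have hn : ∀ l : List ℕ, ‖(l.map v).prod‖ ≤ 1 := by
    intro l
    induction l with
    | nil => simp
    | cons a l ih =>
      rw [List.map_cons, List.prod_cons, norm_mul]
      exact mul_le_one₀ (hv a) (norm_nonneg _) ih
  refine ⟨fun n => if n = 0 then 0 else (n.primeFactorsList.map v).prod, ⟨?_, ?_, ?_, ?_⟩, ?_⟩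
  · simp
  · simp
  · intro m n
    rcases Nat.eq_zero_or_pos m with h | h
    · subst h
      simp
    rcases Nat.eq_zero_or_pos n with h' | h'
    · subst h'
      simp
    simp only
    rw [if_neg (Nat.mul_pos h h').ne', if_neg h.ne', if_neg h'.ne',
      ((Nat.perm_primeFactorsList_mul h.ne' h'.ne').map v).prod_eq, List.map_append, List.prod_append]
  · intro n
    simp only
    split_ifs with h
    · simp
    · exact hn _
  · intro p hp
    simp only
    rw [if_neg hp.ne_zero, Nat.primeFactorsList_prime hp]
    simp

end Pool.Agent.HK
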