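import Pool.Agent.helper36.HK.Spec

/-!
# Row fi:CVR (MP_ad8ced_nt), owner helper36
-/

set_option autoImplicit false

open Finset
open Pool.Agent.FI

noncomputable section

namespace Pool.Agent.HK

private theorem CVR_dvd (g h : ℕ → ℂ) (hg : CM g) (p n : ℕ) (hp : p.Prime) (hn : 1 ≤ n) (hpn : p ∣ n) :
    ∑ d ∈ n.divisorsAntidiagonal.filter (fun d => p ∣ d.1), g d.1 * h d.2 = g p * cv g h (n / p) := by
  obtain ⟨k, rfl⟩ := hpn
  have hk : 1 ≤ k := Nat.pos_of_mul_pos_left hn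
  rw [Nat.mul_div_cancel_left k hp.pos]
  unfold cv
  rw [mul_sum]
  refine sum_nbij' (fun d => (d.1 / p, d.2)) (fun d => (p * d.1, d.2)) ?_ ?_ ?_ ?_ ?_
  · rintro ⟨a, b⟩ hd
    rw [mem_filter, Nat.mem_divisorsAntidiagonal] at hd
    rw [Nat.mem_divisorsAntidiagonal]
    obtain ⟨c, hc⟩ := hd.2
    simp only at hc ⊢
    refine ⟨?_, by omega⟩
    have h1 := hd.1.1
    simp only at h1
    rw [hc, Nat.mul_div_cancel_left c hp.pos]
    rw [hc, mul_assoc] at h1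
    exact Nat.eq_of_mul_eq_mul_left hp.pos h1
  · rintro ⟨a, b⟩ hd
    rw [Nat.mem_divisorsAntidiagonal] at hd
    rw [mem_filter, Nat.mem_divisorsAntidiagonal]
    simp only at hd ⊢
    refine ⟨⟨by rw [mul_assoc, hd.1], by omega⟩, Dvd.intro _ rfl⟩
  · rintro ⟨a, b⟩ hd
    rw [mem_filter] at hd
    simp only
    rw [Nat.mul_div_cancel' hd.2]
  · rintro ⟨a, b⟩ _
    simp only
    rw [Nat.mul_div_cancel_left a hp.pos]
  · rintro ⟨a, b⟩ hd
    rw [mem_filter] at hd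
    obtain ⟨c, hc⟩ := hd.2
    simp only at hc ⊢
    rw [hc, Nat.mul_div_cancel_left c hp.pos, hg.2.2.1]
    ring

private theorem CVR_ndvd (g h : ℕ → ℂ) (hh : CM h) (p m : ℕ) (hp : p.Prime) (hm : 1 ≤ m) :
    ∑ d ∈ (p * m).divisorsAntidiagonal.filter (fun d => ¬ p ∣ d.1), g d.1 * h d.2 =
      h p * ∑ d ∈ m.divisorsAntidiagonal.filter (fun d => ¬ p ∣ d.1), g d.1 * h d.2 := by
  rw [mul_sum]
  have hpm : p * m ≠ 0 := (Nat.mul_pos hp.pos hm).ne'
  refine sum_nbij' (fun d => (d.1, d.2 / p)) (fun d => (d.1, p * d.2)) ?_ ?_ ?_ ?_ ?_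
  · rintro ⟨a, b⟩ hd
    rw [mem_filter, Nat.mem_divisorsAntidiagonal] at hd
    rw [mem_filter, Nat.mem_divisorsAntidiagonal]
    simp only at hd ⊢
    have hb : p ∣ b := (hp.dvd_mul.1 (hd.1.1 ▸ Dvd.intro _ rfl : p ∣ a * b)).resolve_left hd.2
    obtain ⟨c, hc⟩ := hb
    refine ⟨⟨?_, by omega⟩, hd.2⟩
    have h1 := hd.1.1
    rw [hc, Nat.mul_div_cancel_left c hp.pos]
    rw [hc, mul_left_comm] at h1
    exact Nat.eq_of_mul_eq_mul_left hp.pos h1
  · rintro ⟨a, b⟩ hd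
    rw [mem_filter, Nat.mem_divisorsAntidiagonal] at hd
    rw [mem_filter, Nat.mem_divisorsAntidiagonal]
    simp only at hd ⊢
    exact ⟨⟨by rw [mul_left_comm, hd.1.1], hpm⟩, hd.2⟩
  · rintro ⟨a, b⟩ hd
    rw [mem_filter, Nat.mem_divisorsAntidiagonal] at hd
    simp only at hd ⊢
    have hb : p ∣ b := (hp.dvd_mul.1 (hd.1.1 ▸ Dvd.intro _ rfl : p ∣ a * b)).resolve_left hd.2
    rw [Nat.mul_div_cancel' hb]
  · rintro ⟨a, b⟩ _
    simp only
    rw [Nat.mul_div_cancel_left b hp.pos]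
  · rintro ⟨a, b⟩ hd
    rw [mem_filter, Nat.mem_divisorsAntidiagonal] at hd
    simp only at hd ⊢
    have hb : p ∣ b := (hp.dvd_mul.1 (hd.1.1 ▸ Dvd.intro _ rfl : p ∣ a * b)).resolve_left hd.2
    obtain ⟨c, hc⟩ := hb
    rw [hc, Nat.mul_div_cancel_left c hp.pos, hh.2.2.1]
    ring

theorem CVR : CVR_stmt := by
  intro g h hg hh p m hp hm
  have hpm : 1 ≤ p * m := Nat.mul_pos hp.pos hm
  have e1 : cv g h (p * m) = ∑ d ∈ (p * m).divisorsAntidiagonal.filter (fun d => p ∣ d.1), g d.1 * h d.2 +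
      ∑ d ∈ (p * m).divisorsAntidiagonal.filter (fun d => ¬ p ∣ d.1), g d.1 * h d.2 :=
    (sum_filter_add_sum_filter_not _ _ _).symm
  have e2 : cv g h m = ∑ d ∈ m.divisorsAntidiagonal.filter (fun d => p ∣ d.1), g d.1 * h d.2 +
      ∑ d ∈ m.divisorsAntidiagonal.filter (fun d => ¬ p ∣ d.1), g d.1 * h d.2 :=
    (sum_filter_add_sum_filter_not _ _ _).symm
  rw [e1, CVR_dvd g h hg p (p * m) hp hpm (Dvd.intro _ rfl), Nat.mul_div_cancel_left m hp.pos,
    CVR_ndvd g h hh p m hp hm]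
  have e3 : ∑ d ∈ m.divisorsAntidiagonal.filter (fun d => p ∣ d.1), g d.1 * h d.2 =
      g p * (if p ∣ m then cv g h (m / p) else 0) := by
    split_ifs with hd
    · exact CVR_dvd g h hg p m hp hm hd
    · rw [mul_zero]
      refine sum_eq_zero fun d hd2 => ?_
      rw [mem_filter, Nat.mem_divisorsAntidiagonal] at hd2
      exact absurd (hd2.1.1 ▸ Dvd.dvd.mul_right hd2.2 _) hd
  rw [e3] at e2
  have e4 : ∑ d ∈ m.divisorsAntidiagonal.filter (fun d => ¬ p ∣ d.1), g d.1 * h d.2 =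
      cv g h m - g p * (if p ∣ m then cv g h (m / p) else 0) := by
    rw [e2]
    ring
  rw [e4]
  ring

end Pool.Agent.HK
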