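import Mathlib
import Pool.Agent.helper62.K3.Defs

/-!
HK project, module FA: one step of the finiteness induction.
-/

open scoped Manifold ContDiff

noncomputable section

namespace Pool.Agent.helper62.K3

lemma FA_vrel {X : Type} [MetricSpace X] (f : Finset X → ZMod 2) :
    f ∈ Vrel (∅ : Set X) ↔ f ∅ = 0 := by
  constructor
  · rintro ⟨δ, hδ, h⟩
    exact h ∅ (fun x hx => absurd hx (Finset.notMem_empty x))
  · intro h
    refine ⟨1, one_pos, fun σ hσ => ?_⟩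
    have h1 : σ = ∅ := by
      rw [Finset.eq_empty_iff_forall_notMem]
      intro x hx
      obtain ⟨p, hp, _⟩ := hσ x hx
      exact hp
    rw [h1, h]

open scoped Classical in
lemma FA_dd_apply {X : Type} (f : Finset X → ZMod 2) (σ : Finset X) :
    dd f σ = ∑ x ∈ σ, f (σ.erase x) := rfl

lemma FA_dd_empty {X : Type} (f : Finset X → ZMod 2) : dd f ∅ = 0 := by
  classical
  rw [FA_dd_apply, Finset.sum_empty]

lemma FA_dd_sq {X : Type} (f : Finset X → ZMod 2) : dd (dd f) = 0 := by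
  classical
  funext σ
  rw [FA_dd_apply]
  simp only [FA_dd_apply]
  rw [Finset.sum_sigma', Pi.zero_apply]
  refine Finset.sum_involution (fun p _ => ⟨p.2, p.1⟩) ?_ ?_ ?_ ?_
  · rintro ⟨x, y⟩ _
    simp only
    rw [Finset.erase_right_comm]
    exact CharTwo.add_self_eq_zero _
  · rintro ⟨x, y⟩ hp _ h
    rw [Finset.mem_sigma, Finset.mem_erase] at hp
    simp only [Sigma.mk.injEq, heq_eq_eq] at h
    exact hp.2.1 h.1
  · rintro ⟨x, y⟩ hp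
    rw [Finset.mem_sigma, Finset.mem_erase] at hp ⊢
    exact ⟨hp.2.2, fun h => hp.2.1 h.symm, hp.1⟩
  · rintro ⟨x, y⟩ _
    rfl

lemma FA_Zg_mono {X : Type} [MetricSpace X] {B B' : Set X} (h : B ⊆ B') (n : ℕ)
    (f : Finset X → ZMod 2) (hf : f ∈ Zg B' n) : f ∈ Zg B n := by
  obtain ⟨δ, hδ, h1⟩ := hf
  exact ⟨δ, hδ, fun σ hσ hs hc => h1 σ (hσ.trans h) hs hc⟩

lemma FA_finPair {X : Type} [MetricSpace X] (C D : Set X) (n : ℕ) {M : Type} [AddCommGroup M]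
    [Module (ZMod 2) M] [Module.Finite (ZMod 2) M] (T : (Finset X → ZMod 2) →ₗ[ZMod 2] M)
    (h : ∀ f ∈ Vrel (∅ : Set X), dd f ∈ Zg D (n + 1) → T f = 0 →
      f ∈ Bdy dd (Zg C) (Vrel ∅) n) : FinPair C D n := by
  refine ⟨Module.finrank (ZMod 2) M,
    (Module.finBasis (ZMod 2) M).equivFun.toLinearMap ∘ₗ T, fun f hf hd hl => h f hf hd ?_⟩
  rw [LinearMap.comp_apply, LinearEquiv.coe_coe, LinearEquiv.map_eq_zero_iff] at hl
  exact hl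

lemma FA_mem_Bdy {X : Type} [MetricSpace X] (C : Set X) (n : ℕ) (f : Finset X → ZMod 2) :
    f ∈ Bdy dd (Zg C) (Vrel ∅) n ↔
      ∃ g ∈ Vrel (∅ : Set X), ∃ z ∈ Vrel (∅ : Set X), z ∈ Zg C n ∧ dd g + z = f := by
  unfold Bdy
  rw [Submodule.mem_sup]
  constructor
  · rintro ⟨y, ⟨g, hg, rfl⟩, z, hz, rfl⟩
    exact ⟨g, hg, z, hz.1, hz.2, rfl⟩
  · rintro ⟨g, hg, z, hz, hz', rfl⟩
    exact ⟨dd g, ⟨g, hg, rfl⟩, z, ⟨hz, hz'⟩, rfl⟩

/-- The gluing argument. -/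
lemma FA_glue {X : Type} [MetricSpace X] (C₁ C₂ P₁ P₂ E₁ E₂ : Set X) (n : ℕ) (a : ℝ)
    (ha : 0 < a)
    (h1 : ∀ x ∈ C₁, ∀ y, dist x y < a → y ∈ P₁) (h2 : ∀ x ∈ C₂, ∀ y, dist x y < a → y ∈ P₂)
    (hP1 : P₁ ⊆ E₁) (hP2 : P₂ ⊆ E₂)
    (f g1 g2 h z : Finset X → ZMod 2) (hg1 : g1 ∅ = 0)
    (hf1 : f - dd g1 ∈ Zg E₁ (n + 1)) (hf2 : f - dd g2 ∈ Zg E₂ (n + 1))
    (hz : z ∈ Zg (P₁ ∩ P₂) n) (hg : dd h + z = g1 - g2) :
    ∃ g : Finset X → ZMod 2, g ∅ = 0 ∧ f - dd g ∈ Zg (C₁ ∪ C₂) (n + 1) := by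
  classical
  obtain ⟨h', hh'⟩ : ∃ h' : Finset X → ZMod 2, h' = fun τ : Finset X =>
      if (↑τ : Set X) ⊆ P₁ ∩ P₂ then h τ else 0 := ⟨_, rfl⟩
  obtain ⟨g, hgd⟩ : ∃ g : Finset X → ZMod 2, g = fun τ : Finset X =>
      if (↑τ : Set X) ⊆ P₁ then g1 τ else (g2 + dd h') τ := ⟨_, rfl⟩
  obtain ⟨δ1, hδ1, H1⟩ := hf1
  obtain ⟨δ2, hδ2, H2⟩ := hf2
  obtain ⟨δ3, hδ3, H3⟩ := hz
  refine ⟨g, ?_, min a (min δ1 (min δ2 δ3)), by positivity, ?_⟩
  · rw [hgd]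
    simp only [Finset.coe_empty, Set.empty_subset, if_true]
    exact hg1
  intro σ hσ hs hc
  have hsa : Small a σ := fun x hx y hy => (hs x hx y hy).trans_le (min_le_left _ _)
  have hs1 : Small δ1 σ := fun x hx y hy => (hs x hx y hy).trans_le
    ((min_le_right _ _).trans (min_le_left _ _))
  have hs2 : Small δ2 σ := fun x hx y hy => (hs x hx y hy).trans_le
    ((min_le_right _ _).trans ((min_le_right _ _).trans (min_le_left _ _)))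
  have hs3 : Small δ3 σ := fun x hx y hy => (hs x hx y hy).trans_le
    ((min_le_right _ _).trans ((min_le_right _ _).trans (min_le_right _ _)))
  have hne : σ.Nonempty := by
    rw [← Finset.card_pos]
    omega
  obtain ⟨x, hx⟩ := hne
  rw [Pi.sub_apply, sub_eq_zero]
  rcases hσ (Finset.mem_coe.mpr hx) with hx1 | hx2
  · have hσP : (↑σ : Set X) ⊆ P₁ := fun y hy => h1 x hx1 y (hsa x hx y (Finset.mem_coe.mp hy))
    have h3 := H1 σ (hσP.trans hP1) hs1 hc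
    rw [Pi.sub_apply, sub_eq_zero] at h3
    rw [h3, FA_dd_apply, FA_dd_apply]
    refine Finset.sum_congr rfl fun y _ => ?_
    rw [hgd]
    simp only
    rw [if_pos]
    exact (Finset.coe_subset.mpr (Finset.erase_subset y σ)).trans hσP
  · have hσP : (↑σ : Set X) ⊆ P₂ := fun y hy => h2 x hx2 y (hsa x hx y (Finset.mem_coe.mp hy))
    have h3 := H2 σ (hσP.trans hP2) hs2 hc
    rw [Pi.sub_apply, sub_eq_zero] at h3
    have h4 : dd g σ = dd (g2 + dd h') σ := by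
      rw [FA_dd_apply, FA_dd_apply]
      refine Finset.sum_congr rfl fun y hy => ?_
      have hsub : σ.erase y ⊆ σ := Finset.erase_subset y σ
      have hcard : (σ.erase y).card = n := by
        rw [Finset.card_erase_of_mem hy, hc]
        rfl
      rw [hgd]
      simp only
      by_cases hP : (↑(σ.erase y) : Set X) ⊆ P₁
      · rw [if_pos hP]
        have hPP : (↑(σ.erase y) : Set X) ⊆ P₁ ∩ P₂ :=
          Set.subset_inter hP ((Finset.coe_subset.mpr hsub).trans hσP)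
        have h5 := congrFun hg (σ.erase y)
        rw [Pi.add_apply, Pi.sub_apply,
          H3 (σ.erase y) hPP (fun u hu v hv => hs3 u (hsub hu) v (hsub hv)) hcard, add_zero] at h5
        have h6 : dd h' (σ.erase y) = dd h (σ.erase y) := by
          rw [FA_dd_apply, FA_dd_apply]
          refine Finset.sum_congr rfl fun w _ => ?_
          rw [hh']
          simp only
          rw [if_pos]
          exact (Finset.coe_subset.mpr (Finset.erase_subset w _)).trans hPP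
        rw [Pi.add_apply, h6, h5]
        ring
      · rw [if_neg hP]
    rw [h4, map_add, FA_dd_sq, add_zero, h3]

theorem FA {X : Type} [MetricSpace X] (C₁ C₂ P₁ P₂ E₁ E₂ D : Set X) (n : ℕ) (a : ℝ) (ha : 0 < a)
    (h1 : ∀ x ∈ C₁, ∀ y, dist x y < a → y ∈ P₁) (h2 : ∀ x ∈ C₂, ∀ y, dist x y < a → y ∈ P₂)
    (hP1 : P₁ ⊆ E₁) (hP2 : P₂ ⊆ E₂) (hE1 : E₁ ⊆ D) (hE2 : E₂ ⊆ D)
    (f1 : FinPair E₁ D (n + 1)) (f2 : FinPair E₂ D (n + 1))
    (f3 : FinPair (P₁ ∩ P₂) (E₁ ∩ E₂) n) : FinPair (C₁ ∪ C₂) D (n + 1) := by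
  obtain ⟨m1, l1, H1⟩ := f1
  obtain ⟨m2, l2, H2⟩ := f2
  obtain ⟨m3, μ, H3⟩ := f3
  -- the submodule of admissible cocycles
  obtain ⟨U, hU⟩ : ∃ U : Submodule (ZMod 2) (Finset X → ZMod 2), ∀ f, f ∈ U ↔
      f ∈ Vrel (∅ : Set X) ∧ dd f ∈ Zg D (n + 1 + 1) ∧ l1 f = 0 ∧ l2 f = 0 := by
    refine ⟨Vrel (∅ : Set X) ⊓ (Zg D (n + 1 + 1)).comap dd ⊓ LinearMap.ker l1 ⊓
      LinearMap.ker l2, fun f => ?_⟩
    simp only [Submodule.mem_inf, Submodule.mem_comap, LinearMap.mem_ker]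
    tauto
  obtain ⟨S, hS⟩ : ∃ S : Submodule (ZMod 2)
      (U × (Finset X → ZMod 2) × (Finset X → ZMod 2)), ∀ q, q ∈ S ↔
      (q.2.1 ∈ Vrel (∅ : Set X) ∧ q.2.2 ∈ Vrel (∅ : Set X)) ∧
      ((q.1 : Finset X → ZMod 2) - dd q.2.1 ∈ Zg E₁ (n + 1) ∧
      (q.1 : Finset X → ZMod 2) - dd q.2.2 ∈ Zg E₂ (n + 1)) := by
    let A1 : (U × (Finset X → ZMod 2) × (Finset X → ZMod 2)) →ₗ[ZMod 2] (Finset X → ZMod 2) :=
      LinearMap.fst _ _ _ ∘ₗ LinearMap.snd _ _ _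
    let A2 : (U × (Finset X → ZMod 2) × (Finset X → ZMod 2)) →ₗ[ZMod 2] (Finset X → ZMod 2) :=
      LinearMap.snd _ _ _ ∘ₗ LinearMap.snd _ _ _
    let A0 : (U × (Finset X → ZMod 2) × (Finset X → ZMod 2)) →ₗ[ZMod 2] (Finset X → ZMod 2) :=
      U.subtype ∘ₗ LinearMap.fst _ _ _
    refine ⟨(Vrel (∅ : Set X)).comap A1 ⊓ (Vrel (∅ : Set X)).comap A2 ⊓
      ((Zg E₁ (n + 1)).comap (A0 - dd ∘ₗ A1) ⊓ (Zg E₂ (n + 1)).comap (A0 - dd ∘ₗ A2)),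
      fun q => ?_⟩
    simp only [Submodule.mem_inf, Submodule.mem_comap]
    rfl
  have hsurj : Function.Surjective
      ((LinearMap.fst (ZMod 2) U ((Finset X → ZMod 2) × (Finset X → ZMod 2))) ∘ₗ S.subtype) := by
    intro f
    obtain ⟨hf, hd, hl1, hl2⟩ := (hU f.1).mp f.2
    obtain ⟨g1, hg1, z1, _, hz1, e1⟩ := (FA_mem_Bdy _ _ _).mp (H1 f.1 hf hd hl1)
    obtain ⟨g2, hg2, z2, _, hz2, e2⟩ := (FA_mem_Bdy _ _ _).mp (H2 f.1 hf hd hl2)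
    refine ⟨⟨(f, g1, g2), (hS _).mpr ⟨⟨hg1, hg2⟩, ?_, ?_⟩⟩, rfl⟩
    · simp only
      rw [← e1, add_sub_cancel_left]
      exact hz1
    · simp only
      rw [← e2, add_sub_cancel_left]
      exact hz2
  obtain ⟨sec, hsec⟩ := LinearMap.exists_rightInverse_of_surjective _
    (LinearMap.range_eq_top.mpr hsurj)
  have hsec' : ∀ f : U, ((sec f : S) : U × (Finset X → ZMod 2) × (Finset X → ZMod 2)).1 = f :=
    fun f => by
      have := LinearMap.congr_fun hsec f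
      exact this
  let B1 : S →ₗ[ZMod 2] (Finset X → ZMod 2) :=
    (LinearMap.fst _ _ _ ∘ₗ LinearMap.snd _ _ _) ∘ₗ S.subtype
  let B2 : S →ₗ[ZMod 2] (Finset X → ZMod 2) :=
    (LinearMap.snd _ _ _ ∘ₗ LinearMap.snd _ _ _) ∘ₗ S.subtype
  obtain ⟨ν, hν⟩ := LinearMap.exists_extend (μ ∘ₗ (B1 - B2) ∘ₗ sec)
  refine FA_finPair _ _ _ (l1.prod (l2.prod ν)) ?_
  intro f hf hd hl
  have hl1 : l1 f = 0 := congrArg Prod.fst hl
  have hl2 : l2 f = 0 := congrArg (fun q => q.2.1) hl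
  have hl3 : ν f = 0 := congrArg (fun q => q.2.2) hl
  have hfU : f ∈ U := (hU f).mpr ⟨hf, hd, hl1, hl2⟩
  have hν' := LinearMap.congr_fun hν ⟨f, hfU⟩
  have e0 := hsec' ⟨f, hfU⟩
  obtain ⟨⟨⟨f', g1, g2⟩, hq⟩, hqd⟩ : ∃ q : S, q = sec ⟨f, hfU⟩ := ⟨_, rfl⟩
  rw [← hqd] at e0
  simp only at e0
  subst e0
  obtain ⟨⟨hg1, hg2⟩, hf1, hf2⟩ := (hS _).mp hq
  simp only at hg1 hg2 hf1 hf2
  have hμ : μ (g1 - g2) = 0 := by
    have h3 : (μ ∘ₗ (B1 - B2) ∘ₗ sec) ⟨f, hfU⟩ = μ (g1 - g2) := by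
      rw [LinearMap.comp_apply, LinearMap.comp_apply, ← hqd]
      rfl
    rw [← h3, ← hν']
    exact hl3
  have hdd : dd (g1 - g2) ∈ Zg (E₁ ∩ E₂) (n + 1) := by
    have h3 := FA_Zg_mono (Set.inter_subset_left (s := E₁) (t := E₂)) _ _ hf1
    have h4 := FA_Zg_mono (Set.inter_subset_right (s := E₁) (t := E₂)) _ _ hf2
    have h5 := Submodule.sub_mem _ h4 h3
    rw [sub_sub_sub_cancel_left] at h5
    rw [map_sub]
    exact h5
  obtain ⟨h, hh, z, _, hz, e⟩ := (FA_mem_Bdy _ _ _).mp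
    (H3 (g1 - g2) (Submodule.sub_mem _ hg1 hg2) hdd hμ)
  obtain ⟨g, hg, hgz⟩ := FA_glue C₁ C₂ P₁ P₂ E₁ E₂ n a ha h1 h2 hP1 hP2 f g1 g2 h z
    ((FA_vrel g1).mp hg1) hf1 hf2 hz e
  rw [FA_mem_Bdy]
  refine ⟨g, (FA_vrel g).mpr hg, f - dd g, ?_, hgz, by abel⟩
  rw [FA_vrel, Pi.sub_apply, FA_dd_empty, sub_zero]
  exact (FA_vrel f).mp hf

end Pool.Agent.helper62.K3
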