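import Mathlib
import Pool.Agent.helper62.K3.Defs
import Pool.Agent.helper17.HK.FA

/-!
HK project, module FC: the finiteness induction (uses FA, and FB as a hypothesis).
-/

open scoped Manifold ContDiff

noncomputable section

namespace Pool.Agent.helper62.K3

lemma FC_min {X : Type} (t : Finset X) (η : X → ℝ) (hη : ∀ x, 0 < η x) (a : ℝ) (ha : 0 < a) :
    ∃ b > 0, b ≤ a ∧ ∀ x ∈ t, b ≤ η x / 2 := by
  classical
  induction t using Finset.induction_on with
  | empty => exact ⟨a, ha, le_refl a, fun x hx => absurd hx (Finset.notMem_empty x)⟩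
  | insert x t _ ih =>
    obtain ⟨b, hb, hba, hbt⟩ := ih
    have hx := hη x
    refine ⟨min b (η x / 2), lt_min hb (by linarith), (min_le_left _ _).trans hba, ?_⟩
    intro y hy
    rcases Finset.mem_insert.mp hy with rfl | hy
    · exact min_le_right _ _
    · exact (min_le_left _ _).trans (hbt y hy)

lemma FC_zero {X : Type} [MetricSpace X] (C D : Set X) : FinPair C D 0 := by
  refine ⟨0, 0, fun f hf _ _ => ?_⟩
  rw [FA_mem_Bdy]
  refine ⟨0, Submodule.zero_mem _, f, hf, ⟨1, one_pos, fun σ _ _ hc => ?_⟩, by simp⟩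
  rw [Finset.card_eq_zero] at hc
  rw [hc]
  exact (FA_vrel f).mp hf

lemma FC_empty {X : Type} [MetricSpace X] (D : Set X) (n : ℕ) :
    FinPair (∅ : Set X) D (n + 1) := by
  refine ⟨0, 0, fun f hf _ _ => ?_⟩
  rw [FA_mem_Bdy]
  refine ⟨0, Submodule.zero_mem _, f, hf, ⟨1, one_pos, fun σ hσ _ hc => ?_⟩, by simp⟩
  exfalso
  have hne : σ.Nonempty := by
    rw [← Finset.card_pos]
    omega
  obtain ⟨x, hx⟩ := hne
  exact hσ (Finset.mem_coe.mpr hx)

/-- The statement of the module FB for the space `X`. -/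
def FC_FB (X : Type) [MetricSpace X] : Prop :=
  ∀ (C D : Set X) (x : X) (η : ℝ)
    (Φ : ℝ → X → X) (_ : IsCompact (Metric.closedBall x η))
    (_ : ContinuousOn (fun q : ℝ × X => Φ q.1 q.2) (Set.Icc 0 1 ×ˢ Metric.closedBall x η))
    (_ : ∀ y ∈ Metric.closedBall x η, Φ 0 y = y)
    (_ : ∃ c, ∀ y ∈ Metric.closedBall x η, Φ 1 y = c)
    (_ : ∀ t ∈ Set.Icc (0 : ℝ) 1, ∀ y ∈ Metric.closedBall x η, Φ t y ∈ D)
    (_ : C ⊆ Metric.closedBall x η) (n : ℕ), FinPair C D n

/-- The inner induction. -/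
lemma FC_inner {X : Type} [MetricSpace X] (n : ℕ) (D : Set X) (η : X → ℝ)
    (ih : ∀ (C D : Set X) (a : ℝ), 0 < a → (∀ x ∈ C, ∀ y, dist x y < a → y ∈ D) →
      FinPair C D n) (t : Finset X)
    (hFB : ∀ x ∈ t, ∀ C' : Set X, C' ⊆ Metric.closedBall x (η x) → FinPair C' D (n + 1)) :
    ∀ (r : X → ℝ) (a : ℝ), 0 < a → ∀ C' : Set X,
      C' ⊆ (⋃ x ∈ t, Metric.closedBall x (r x)) → (∀ x ∈ t, r x + a ≤ η x) →
      (∀ x ∈ C', ∀ y, dist x y < a → y ∈ D) → FinPair C' D (n + 1) := by
  classical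
  induction t using Finset.induction_on with
  | empty =>
    intro r a ha C' hC' _ _
    have h0 : C' = ∅ := by
      refine Set.eq_empty_of_subset_empty (hC'.trans ?_)
      simp
    rw [h0]
    exact FC_empty D n
  | insert x t _ iht =>
    intro r a ha C' hC' hr hD
    have iht' := iht (fun y hy => hFB y (Finset.mem_insert_of_mem hy))
    obtain ⟨C₁, hC₁⟩ : ∃ C₁ : Set X, C₁ = C' ∩ (⋃ x ∈ t, Metric.closedBall x (r x)) := ⟨_, rfl⟩
    obtain ⟨C₂, hC₂⟩ : ∃ C₂ : Set X, C₂ = C' ∩ Metric.closedBall x (r x) := ⟨_, rfl⟩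
    have hU : C' = C₁ ∪ C₂ := by
      rw [hC₁, hC₂, ← Set.inter_union_distrib_left]
      refine (Set.inter_eq_left.mpr (hC'.trans ?_)).symm
      intro y hy
      rw [Set.mem_iUnion₂] at hy
      obtain ⟨z, hz, hyz⟩ := hy
      rcases Finset.mem_insert.mp hz with rfl | hz
      · exact Or.inr hyz
      · left
        rw [Set.mem_iUnion₂]
        exact ⟨z, hz, hyz⟩
    have h1C : C₁ ⊆ C' := by rw [hC₁]; exact Set.inter_subset_left
    have h2C : C₂ ⊆ C' := by rw [hC₂]; exact Set.inter_subset_left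
    have tri : ∀ x y z : X, dist x z ≤ dist x y + dist y z := dist_triangle
    have hE : ∀ C'' : Set X, C'' ⊆ C' → {y | ∃ c ∈ C'', dist c y < 2 * a / 3} ⊆ D := by
      rintro C'' hC'' y ⟨c, hc, hcy⟩
      exact hD c (hC'' hc) y (by linarith)
    have hPE : ∀ C'' : Set X, {y | ∃ c ∈ C'', dist c y < a / 3} ⊆
        {y | ∃ c ∈ C'', dist c y < 2 * a / 3} := by
      rintro C'' y ⟨c, hc, hcy⟩
      exact ⟨c, hc, by linarith⟩
    have hEE : ∀ C'' : Set X, ∀ x, (∃ c ∈ C'', dist c x < a / 3) → ∀ y, dist x y < a / 3 →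
        ∃ c ∈ C'', dist c y < 2 * a / 3 := by
      rintro C'' x ⟨c, hc, hcx⟩ y hxy
      exact ⟨c, hc, by have := tri c x y; linarith⟩
    rw [hU]
    refine FA C₁ C₂ {y | ∃ c ∈ C₁, dist c y < a / 3} {y | ∃ c ∈ C₂, dist c y < a / 3}
      {y | ∃ c ∈ C₁, dist c y < 2 * a / 3} {y | ∃ c ∈ C₂, dist c y < 2 * a / 3} D n (a / 3)
      (by linarith) (fun x hx y hxy => ⟨x, hx, hxy⟩) (fun x hx y hxy => ⟨x, hx, hxy⟩)
      (hPE C₁) (hPE C₂) (hE C₁ h1C) (hE C₂ h2C) ?_ ?_ ?_
    · refine iht' (fun y => r y + 2 * a / 3) (a / 3) (by linarith) _ ?_ ?_ ?_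
      · rintro y ⟨c, hc, hcy⟩
        rw [hC₁] at hc
        have hc2 := hc.2
        rw [Set.mem_iUnion₂] at hc2
        obtain ⟨z, hz, hcz⟩ := hc2
        rw [Set.mem_iUnion₂]
        refine ⟨z, hz, ?_⟩
        rw [Metric.mem_closedBall] at hcz ⊢
        have := tri y c z
        rw [dist_comm y c] at this
        linarith
      · intro y hy
        have := hr y (Finset.mem_insert_of_mem hy)
        linarith
      · rintro y ⟨c, hc, hcy⟩ z hyz
        exact hD c (h1C hc) z (by have := tri c y z; linarith)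
    · refine hFB x (Finset.mem_insert_self x t) _ ?_
      rintro y ⟨c, hc, hcy⟩
      rw [hC₂] at hc
      have hcz := hc.2
      rw [Metric.mem_closedBall] at hcz ⊢
      have := tri y c x
      rw [dist_comm y c] at this
      have := hr x (Finset.mem_insert_self x t)
      linarith
    · refine ih _ _ (a / 3) (by linarith) ?_
      rintro y ⟨hy1, hy2⟩ z hyz
      exact ⟨hEE C₁ y hy1 z hyz, hEE C₂ y hy2 z hyz⟩

theorem FC_of {X : Type} [MetricSpace X] [CompactSpace X] (hFB : FC_FB X) (lc : LC X) (n : ℕ)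
    (C D : Set X) (a : ℝ) (ha : 0 < a) (h : ∀ x ∈ C, ∀ y, dist x y < a → y ∈ D) :
    FinPair C D n := by
  induction n generalizing C D a with
  | zero => exact FC_zero C D
  | succ n ih =>
    choose η hη Φ hΦ using fun x => lc x (a / 2) (by linarith)
    have hcl : IsCompact (closure C) := isClosed_closure.isCompact
    obtain ⟨t, ht, hcov⟩ := hcl.elim_nhds_subcover (fun x => Metric.ball x (η x / 2))
      (fun x _ => Metric.ball_mem_nhds x (by have := hη x; linarith))
    obtain ⟨b, hb, hba, hbt⟩ := FC_min t η hη a ha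
    refine FC_inner n D η ih t ?_ (fun x => η x / 2) b hb C ?_ ?_ ?_
    · intro x hx C' hC'
      obtain ⟨h1, h2, h3, h4⟩ := hΦ x
      refine hFB C' D x (η x) (Φ x) Metric.isClosed_closedBall.isCompact h1 h2 h3 ?_ hC' (n + 1)
      intro s hs y hy
      have h5 := h4 s hs y hy
      rw [Metric.mem_closedBall] at h5
      obtain ⟨c, hc, hcx⟩ := Metric.mem_closure_iff.mp (ht x hx) (a / 4) (by linarith)
      refine h c hc _ ?_
      have h6 := dist_triangle c x (Φ x s y)
      rw [dist_comm c x, dist_comm x (Φ x s y)] at h6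
      linarith
    · refine subset_closure.trans (hcov.trans ?_)
      exact Set.iUnion₂_mono fun x _ => Metric.ball_subset_closedBall
    · intro x hx
      have := hbt x hx
      linarith
    · intro x hx y hxy
      exact h x hx y (hxy.trans_le hba)

end Pool.Agent.helper62.K3
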